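import Mathlib

/-!
First-order Peano arithmetic and the lattices of intermediate elementary submodels.
-/

open FirstOrder FirstOrder.Language

universe u v w

namespace PALat

/-- function symbols `0, 1, +, *` -/
inductive PAFn : ℕ → Type
  | zero : PAFn 0
  | one : PAFn 0
  | add : PAFn 2
  | mul : PAFn 2

/-- the relation symbol `<` -/
inductive PARl : ℕ → Type
  | lt : PARl 2

/-- The language `{0, 1, +, *, <}` of arithmetic. -/
def LPA : FirstOrder.Language := ⟨PAFn, PARl⟩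

section Terms

variable {α : Type}

/-- the term `0` -/
def tZero : LPA.Term α := Term.func (L := LPA) (l := 0) PAFn.zero ![]

/-- the term `1` -/
def tOne : LPA.Term α := Term.func (L := LPA) (l := 0) PAFn.one ![]

/-- the term `t + s` -/
def tAdd (t s : LPA.Term α) : LPA.Term α := Term.func (L := LPA) (l := 2) PAFn.add ![t, s]

/-- the term `t * s` -/
def tMul (t s : LPA.Term α) : LPA.Term α := Term.func (L := LPA) (l := 2) PAFn.mul ![t, s]

end Terms

/-- the formula `t < s` -/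
def fLt {n : ℕ} (t s : LPA.Term (Empty ⊕ Fin n)) : LPA.BoundedFormula Empty n :=
  Relations.boundedFormula₂ (L := LPA) PARl.lt t s

/-- The induction axiom of `φ (x_0, ..., x_n)`, with respect to the variable `x_n`:
for all `x_0, ..., x_{n-1}`, if `φ` holds at `x_n = 0`, and whenever `φ` holds at `x_n` it holds at
`x_{n+1} = x_n + 1` in the place of `x_n`, then `φ` holds at all `x_n`.
(`φ.liftAt 1 n` is `φ` with the variable `x_n` renamed to `x_{n+1}`.) -/
def indAx {n : ℕ} (φ : LPA.BoundedFormula Empty (n + 1)) : LPA.Sentence :=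
  (((∀' ((&(Fin.last n)) =' tZero ⟹ φ)) ⊓
    (∀' (φ ⟹ ∀' ((&(Fin.last (n + 1))) =' tAdd (&(Fin.last n).castSucc) tOne ⟹
      φ.liftAt 1 n)))) ⟹ ∀' φ).alls

/-- axiom: addition is associative -/
def ax0 : LPA.Sentence :=
  ∀' ∀' ∀' (tAdd (tAdd (&0) (&1)) (&2) =' tAdd (&0) (tAdd (&1) (&2)))

/-- axiom: addition is commutative -/
def ax1 : LPA.Sentence := ∀' ∀' (tAdd (&0) (&1) =' tAdd (&1) (&0))

/-- axiom: multiplication is associative -/
def ax2 : LPA.Sentence :=
  ∀' ∀' ∀' (tMul (tMul (&0) (&1)) (&2) =' tMul (&0) (tMul (&1) (&2)))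

/-- axiom: multiplication is commutative -/
def ax3 : LPA.Sentence := ∀' ∀' (tMul (&0) (&1) =' tMul (&1) (&0))

/-- axiom: distributivity -/
def ax4 : LPA.Sentence :=
  ∀' ∀' ∀' (tMul (&0) (tAdd (&1) (&2)) =' tAdd (tMul (&0) (&1)) (tMul (&0) (&2)))

/-- axiom: `x + 0 = x` and `x * 0 = 0` -/
def ax5 : LPA.Sentence := ∀' ((tAdd (&0) tZero =' (&0)) ⊓ (tMul (&0) tZero =' tZero))

/-- axiom: `x * 1 = x` -/
def ax6 : LPA.Sentence := ∀' (tMul (&0) tOne =' (&0))

/-- axiom: `<` is transitive -/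
def ax7 : LPA.Sentence := ∀' ∀' ∀' ((fLt (&0) (&1) ⊓ fLt (&1) (&2)) ⟹ fLt (&0) (&2))

/-- axiom: `<` is irreflexive -/
def ax8 : LPA.Sentence := ∀' ∼(fLt (&0) (&0))

/-- axiom: `<` is total -/
def ax9 : LPA.Sentence := ∀' ∀' ((fLt (&0) (&1) ⊔ ((&0) =' (&1))) ⊔ fLt (&1) (&0))

/-- axiom: `x < y` implies `x + z < y + z` -/
def ax10 : LPA.Sentence :=
  ∀' ∀' ∀' (fLt (&0) (&1) ⟹ fLt (tAdd (&0) (&2)) (tAdd (&1) (&2)))

/-- axiom: `0 < z` and `x < y` imply `x * z < y * z` -/
def ax11 : LPA.Sentence :=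
  ∀' ∀' ∀' ((fLt tZero (&2) ⊓ fLt (&0) (&1)) ⟹ fLt (tMul (&0) (&2)) (tMul (&1) (&2)))

/-- axiom: `x < y` implies `x + z = y` for some `z` -/
def ax12 : LPA.Sentence := ∀' ∀' (fLt (&0) (&1) ⟹ ∃' (tAdd (&0) (&2) =' (&1)))

/-- axiom: `0 < 1` and there is no `x` with `0 < x < 1` -/
def ax13 : LPA.Sentence :=
  fLt tZero tOne ⊓ ∀' (fLt tZero (&0) ⟹ (fLt tOne (&0) ⊔ (tOne =' (&0))))

/-- axiom: `0` is the least element -/
def ax14 : LPA.Sentence := ∀' (fLt tZero (&0) ⊔ (tZero =' (&0)))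

/-- The axioms of `PA⁻` (discretely ordered semirings, as in Kaye's book). -/
def PAminus : LPA.Theory :=
  {ax0, ax1, ax2, ax3, ax4, ax5, ax6, ax7, ax8, ax9, ax10, ax11, ax12, ax13, ax14}

/-- First-order Peano arithmetic: the axioms of `PA⁻` and the induction scheme. -/
def PA : LPA.Theory :=
  PAminus ∪ {σ | ∃ (n : ℕ) (φ : LPA.BoundedFormula Empty (n + 1)), σ = indAx φ}

section Lattice

variable {M : Type u} {N : Type v} [LPA.Structure M] [LPA.Structure N]

/-- the order relation of a structure for the language of arithmetic -/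
def ltN (x y : N) : Prop := Structure.RelMap (L := LPA) PARl.lt ![x, y]

/-- `N` is an end extension of its elementary submodel `S`: every element of `N` outside `S`
exceeds every element of `S`. -/
def IsEnd (S : LPA.ElementarySubstructure N) : Prop :=
  ∀ x ∈ S, ∀ y, y ∉ S → ltN x y

/-- `Lt(N/M)`: the set of all elementary submodels of `N` that contain (the image of) `M`, ordered
by inclusion. Here `N` is an elementary extension of `M` through `f`. -/
def Lt (f : M ↪ₑ[LPA] N) : Type v :=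
  {S : LPA.ElementarySubstructure N // ∀ x : M, f x ∈ S}

instance (f : M ↪ₑ[LPA] N) : PartialOrder (Lt f) := Subtype.partialOrder _

/-- `Lt*(N/M)` is isomorphic to `(L, C)`: there is an isomorphism of ordered sets (hence of
lattices) from `L` to `Lt(N/M)` that maps `C` onto the set `D` of those submodels of which `N` is
an end extension. -/
def LtStarIso {L : Type w} [Lattice L] (C : Set L) (f : M ↪ₑ[LPA] N) : Prop :=
  ∃ e : L ≃o Lt f, ∀ z : L, z ∈ C ↔ IsEnd (e z).1

end Lattice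

section Ranked

variable {L : Type w} [Lattice L]

/-- `(L, C)` is a ranked lattice: `L` is a finite lattice and `C` is a chain that contains the
top element of `L`. -/
def IsRanked [BoundedOrder L] [Finite L] (C : Set L) : Prop :=
  IsChain (· ≤ ·) C ∧ (⊤ : L) ∈ C

/-- `c` is `z̄`, the least element of `C` above `z`. -/
def IsBar (C : Set L) (z c : L) : Prop := IsLeast {c | c ∈ C ∧ z ≤ c} c

/-- Condition (A): if `x̄ = ȳ` then the bar of `x ⊓ y` is `x̄` as well. -/
def CondA (C : Set L) : Prop :=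
  ∀ x y c, IsBar C x c → IsBar C y c → IsBar C (x ⊓ y) c

/-- Condition (B): if `x ⊔ w = y ⊔ w = z`, `x ⊓ w = y ⊓ w` and `w = w̄ ⊓ z` then `x = y`. -/
def CondB (C : Set L) : Prop :=
  ∀ w x y z c, IsBar C w c → x ⊔ w = z → y ⊔ w = z → x ⊓ w = y ⊓ w → w = c ⊓ z → x = y

/-- Condition (C): if `w̄` is the least element of `C` above `w`, `c ⊓ w̄ = w` and
`w ≤ a ≤ w̄`, then `(a ⊔ c) ⊓ w̄ = a`. -/
def CondC (C : Set L) : Prop :=
  ∀ w a c wb, IsBar C w wb → c ⊓ wb = w → w ≤ a → a ≤ wb → (a ⊔ c) ⊓ wb = a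

/-- No interval of the lattice `L` is isomorphic to the pentagon `N₅`: there is no interval
`[p, q]` that consists of exactly `p, q` and three elements `x < y` and `w` strictly between `p`
and `q` with `w` incomparable to `x` and to `y`. -/
def NoPentagon (L : Type w) [Lattice L] : Prop :=
  ∀ p q : L, ¬ ∃ x y w : L, (p < x ∧ p < w) ∧ (y < q ∧ w < q) ∧ x < y ∧
    (¬ x ≤ w ∧ ¬ w ≤ x) ∧ (¬ y ≤ w ∧ ¬ w ≤ y) ∧
    ∀ r, p ≤ r → r ≤ q → (r = p ∨ r = x ∨ r = y ∨ r = w ∨ r = q)

end Ranked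

end PALat
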