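import Mathlib
import Pool.Agent.Work.MP_789b02_lc.Defs

/-!
The seven element lattice with elements `o, z, a, d, b, c, t` and covering relations
`o < z`, `z < a < b`, `z < d < b`, `b < t`, `z < c < t`, with the chain `{o, b, t}`.
No interval of this lattice is a pentagon.
-/

namespace PALat

/-- the seven elements -/
inductive Hx
  | o | z | a | d | b | c | t
  deriving DecidableEq, Fintype

namespace Hx

/-- the order relation: `o < z`, `z < a < b`, `z < d < b`, `b < t`, `z < c < t` -/
def leB : Hx → Hx → Bool
  | o, _ => true
  | _, t => true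
  | z, z => true
  | z, a => true
  | z, d => true
  | z, b => true
  | z, c => true
  | a, a => true
  | a, b => true
  | d, d => true
  | d, b => true
  | b, b => true
  | c, c => true
  | _, _ => false

/-- joins -/
def sup : Hx → Hx → Hx
  | o, y => y
  | x, o => x
  | z, y => y
  | x, z => x
  | a, a => a
  | d, d => d
  | b, b => b
  | c, c => c
  | a, d => b
  | d, a => b
  | a, b => b
  | b, a => b
  | d, b => b
  | b, d => b
  | _, _ => t

/-- meets -/
def inf : Hx → Hx → Hx
  | t, y => y
  | x, t => x
  | o, _ => o
  | _, o => o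
  | a, a => a
  | d, d => d
  | b, b => b
  | c, c => c
  | a, b => a
  | b, a => a
  | d, b => d
  | b, d => d
  | _, _ => z

instance : Lattice Hx where
  le x y := leB x y = true
  lt x y := leB x y = true ∧ ¬ leB y x = true
  le_refl := by decide
  le_trans := by decide
  lt_iff_le_not_ge := by decide
  le_antisymm := by decide
  sup := sup
  inf := inf
  le_sup_left := by decide
  le_sup_right := by decide
  sup_le := by decide
  inf_le_left := by decide
  inf_le_right := by decide
  le_inf := by decide

instance : DecidableLE Hx := fun x y => inferInstanceAs (Decidable (leB x y = true))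

instance : DecidableLT Hx := fun x y =>
  inferInstanceAs (Decidable (leB x y = true ∧ ¬ leB y x = true))

instance : BoundedOrder Hx where
  top := t
  bot := o
  le_top := by decide
  bot_le := by decide

/-- the chain `{o, b, t}` -/
def C : Set Hx := {x | x = o ∨ x = b ∨ x = t}

instance : DecidablePred (· ∈ C) := fun x => inferInstanceAs (Decidable (x = o ∨ x = b ∨ x = t))

/-- the function `z ↦ z̄` of the chain `C` -/
def bar : Hx → Hx
  | o => o
  | z => b
  | a => b
  | d => b
  | b => b
  | c => t
  | t => t

theorem isBar_iff (x y : Hx) : IsBar C x y ↔ y = bar x := by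
  have h1 : IsBar C x (bar x) := by
    refine ⟨?_, ?_⟩
    · change bar x ∈ C ∧ x ≤ bar x
      revert x
      decide
    · intro w hw
      change w ∈ C ∧ x ≤ w at hw
      revert x w
      decide
  constructor
  · intro h
    exact h.unique h1
  · rintro rfl
    exact h1

theorem isRanked : IsRanked C := by
  refine ⟨?_, ?_⟩
  · have : ∀ x y : Hx, x ∈ C → y ∈ C → x ≠ y → x ≤ y ∨ y ≤ x := by decide
    exact fun x hx y hy hne => this x y hx hy hne
  · exact Or.inr (Or.inr rfl)

theorem condA : CondA C := by
  intro x y w h1 h2
  rw [isBar_iff] at h1 h2 ⊢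
  revert x y w
  decide

theorem condB : CondB C := by
  intro w x y u v hc
  rw [isBar_iff] at hc
  subst hc
  rintro rfl h2 h3 h4
  revert w x y
  decide

theorem not_condC : ¬ CondC C := by
  intro h
  have h1 := h z a c b ((isBar_iff _ _).2 rfl) (by decide) (by decide) (by decide)
  exact absurd h1 (by decide)

/-- The lattice has no interval that is a pentagon. -/
theorem noPentagon : NoPentagon Hx := by
  rintro p q ⟨x, y, w, ⟨h1, h2⟩, ⟨h3, h4⟩, h5, ⟨h6, h7⟩, ⟨h8, h9⟩, h10⟩
  have hx : x = a ∧ y = b ∧ w = c ∨ x = d ∧ y = b ∧ w = c := by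
    clear h10
    revert h1 h2 h3 h4 h5 h6 h7 h8 h9
    revert x y w
    revert p q
    decide
  rcases hx with ⟨rfl, rfl, rfl⟩ | ⟨rfl, rfl, rfl⟩
  · have h := h10 d
    clear h10
    revert h1 h2 h3 h4 h
    revert p q
    decide
  · have h := h10 a
    clear h10
    revert h1 h2 h3 h4 h
    revert p q
    decide

end Hx

end PALat
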