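import Mathlib

/-!
Small toolkit for definable predicates.
-/

open FirstOrder FirstOrder.Language Set

universe u v w

namespace PALat

variable {L : FirstOrder.Language.{u, v}} {N : Type w} [L.Structure N]

/-- The predicate `P` on `α`-tuples of `N` is definable with parameters from `A`. -/
def Df (L : FirstOrder.Language.{u, v}) {N : Type w} [L.Structure N] (A : Set N) {α : Type}
    (P : (α → N) → Prop) : Prop :=
  A.Definable L {x : α → N | P x}

variable {A B : Set N} {α β γ : Type}

theorem Df.mono {P : (α → N) → Prop} (h : Df L A P) (hAB : A ⊆ B) : Df L B P :=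
  Definable.mono h hAB

theorem Df.congr {P Q : (α → N) → Prop} (h : Df L A P) (hPQ : ∀ x, P x ↔ Q x) : Df L A Q := by
  have : P = Q := funext fun x => propext (hPQ x)
  rwa [← this]

theorem Df.and {P Q : (α → N) → Prop} (hP : Df L A P) (hQ : Df L A Q) :
    Df L A (fun x => P x ∧ Q x) :=
  Definable.inter hP hQ

theorem Df.or {P Q : (α → N) → Prop} (hP : Df L A P) (hQ : Df L A Q) :
    Df L A (fun x => P x ∨ Q x) :=
  Definable.union hP hQ

theorem Df.not {P : (α → N) → Prop} (hP : Df L A P) : Df L A (fun x => ¬ P x) :=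
  Definable.compl hP

theorem Df.imp {P Q : (α → N) → Prop} (hP : Df L A P) (hQ : Df L A Q) :
    Df L A (fun x => P x → Q x) :=
  (hP.not.or hQ).congr fun x => by tauto

theorem Df.iff {P Q : (α → N) → Prop} (hP : Df L A P) (hQ : Df L A Q) :
    Df L A (fun x => P x ↔ Q x) :=
  ((hP.imp hQ).and (hQ.imp hP)).congr fun x => by tauto

theorem Df.re (f : α → β) {P : (α → N) → Prop} (hP : Df L A P) :
    Df L A (fun x : β → N => P (x ∘ f)) :=
  Definable.preimage_comp f hP

theorem Df.exF [Finite γ] {P : (α → N) → (γ → N) → Prop}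
    (hP : Df L A (fun x : α ⊕ γ → N => P (x ∘ Sum.inl) (x ∘ Sum.inr))) :
    Df L A (fun x => ∃ y, P x y) := by
  have := Definable.exists_of_finite (β := γ) hP
  simpa [Df] using this

theorem Df.allF [Finite γ] {P : (α → N) → (γ → N) → Prop}
    (hP : Df L A (fun x : α ⊕ γ → N => P (x ∘ Sum.inl) (x ∘ Sum.inr))) :
    Df L A (fun x => ∀ y, P x y) := by
  have := Definable.forall_of_finite (β := γ) hP
  simpa [Df] using this

theorem Df.ex {P : (α → N) → N → Prop}
    (hP : Df L A (fun x : α ⊕ Unit → N => P (x ∘ Sum.inl) (x (Sum.inr ())))) :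
    Df L A (fun x => ∃ y, P x y) := by
  have : Df L A (fun x => ∃ y : Unit → N, P x (y ())) := Df.exF hP
  refine this.congr fun x => ⟨fun ⟨y, hy⟩ => ⟨_, hy⟩, fun ⟨y, hy⟩ => ⟨fun _ => y, hy⟩⟩

theorem Df.all {P : (α → N) → N → Prop}
    (hP : Df L A (fun x : α ⊕ Unit → N => P (x ∘ Sum.inl) (x (Sum.inr ())))) :
    Df L A (fun x => ∀ y, P x y) := by
  have : Df L A (fun x => ∀ y : Unit → N, P x (y ())) := Df.allF hP
  refine this.congr fun x => ⟨fun h y => h fun _ => y, fun h y => h _⟩

theorem Df.allI {ι : Type} [Finite ι] {P : ι → (α → N) → Prop} (hP : ∀ i, Df L A (P i)) :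
    Df L A (fun x => ∀ i, P i x) := by
  have := definable_iInter_of_finite (L := L) (A := A) (f := fun i => {x | P i x}) hP
  refine Df.congr (P := fun x => x ∈ ⋂ i, {x | P i x}) this fun x => by simp

theorem Df.eq (i j : α) : Df L A (fun x => x i = x j) := by
  have h : Df L A (fun x : Fin 2 → N => x 0 = x 1) := Definable.diagonal L A
  exact h.re ![i, j]

theorem Df.const {a : N} (ha : a ∈ A) (i : α) : Df L A (fun x => x i = a) := by
  have h : Df L A (fun x : Fin 1 → N => x 0 = a) := Definable.singleton_of_mem L ha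
  exact h.re ![i]

/-- substitute a parameter for one variable -/
theorem Df.param {P : (α → N) → N → Prop} {a : N} (ha : a ∈ A)
    (hP : Df L A (fun x : α ⊕ Unit → N => P (x ∘ Sum.inl) (x (Sum.inr ())))) :
    Df L A (fun x => P x a) := by
  have h2 : Df L A (fun x => ∃ y, y = a ∧ P x y) :=
    Df.ex (P := fun x y => y = a ∧ P x y) ((Df.const ha _).and hP)
  exact h2.congr fun x => by simp

/-- substitute a tuple of parameters for a block of variables -/
theorem Df.paramF [Finite γ] {P : (α → N) → (γ → N) → Prop} {a : γ → N} (ha : ∀ i, a i ∈ A)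
    (hP : Df L A (fun x : α ⊕ γ → N => P (x ∘ Sum.inl) (x ∘ Sum.inr))) :
    Df L A (fun x => P x a) := by
  have h2 : Df L A (fun x => ∃ y : γ → N, (∀ i, y i = a i) ∧ P x y) :=
    Df.exF (P := fun x y => (∀ i, y i = a i) ∧ P x y)
      ((Df.allI (P := fun i (x : α ⊕ γ → N) => x (Sum.inr i) = a i)
        fun i => Df.const (ha i) _).and hP)
  refine h2.congr fun x => ⟨?_, fun h => ⟨a, fun _ => rfl, h⟩⟩
  rintro ⟨y, hy, h⟩
  rwa [show y = a from funext hy] at h

theorem Df.formula (φ : L.Formula α) : Df L A (fun x => φ.Realize x) := by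
  have h : Df L (∅ : Set N) (fun x => φ.Realize x) := empty_definable_iff.2 ⟨φ, rfl⟩
  exact h.mono (Set.empty_subset A)

/-- a definable predicate is given by a formula with finitely many parameters -/
theorem Df.exists_formula {P : (α → N) → Prop} (h : Df L A P) :
    ∃ (n : ℕ) (p : Fin n → N), (∀ i, p i ∈ A) ∧ ∃ φ : L.Formula (Fin n ⊕ α),
      ∀ x, P x ↔ φ.Realize (Sum.elim p x) := by
  obtain ⟨A0, hA0, hd⟩ := definable_iff_finitely_definable.1 h
  obtain ⟨φ, hφ⟩ := definable_iff_exists_formula_sum.1 hd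
  have hφ' : ∀ x : α → N, P x ↔ φ.Realize (Sum.elim (fun a : (A0 : Set N) => (a : N)) x) :=
    fun x => Set.ext_iff.1 hφ x
  let e : (A0 : Set N) ≃ Fin A0.card := A0.equivFin
  refine ⟨A0.card, fun i => (e.symm i : N), fun i => hA0 (e.symm i).2,
    φ.relabel (Sum.map e id), fun x => ?_⟩
  rw [hφ' x, Formula.realize_relabel]
  have : (Sum.elim (fun i => ((e.symm i : (A0 : Set N)) : N)) x ∘ Sum.map e id)
      = Sum.elim (fun a : (A0 : Set N) => (a : N)) x := by
    funext i
    rcases i with i | i <;> simp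
  rw [this]

/-- an elementary substructure meets every nonempty definable family of tuples -/
theorem meets_tuple (S : L.ElementarySubstructure N) [Finite γ] {P : (γ → N) → Prop}
    (h : Df L (S : Set N) P) (hne : ∃ x, P x) : ∃ x, P x ∧ ∀ i, x i ∈ S := by
  obtain ⟨φ, hφ⟩ := definable_iff_exists_formula_sum.1 h
  have hφ' : ∀ x : γ → N, P x ↔ φ.Realize (Sum.elim (fun s : (S : Set N) => (s : N)) x) :=
    fun x => Set.ext_iff.1 hφ x
  obtain ⟨x, hx⟩ := hne
  have h1 : (φ.iExs γ).Realize (fun s : (S : Set N) => (s : N)) := by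
    rw [Formula.realize_iExs]
    exact ⟨x, (hφ' x).1 hx⟩
  have h2 : (φ.iExs γ).Realize (fun s : (S : Set N) => (⟨s.1, s.2⟩ : S)) := by
    rw [← S.subtype.map_formula]
    exact h1
  rw [Formula.realize_iExs] at h2
  obtain ⟨y, hy⟩ := h2
  refine ⟨fun i => (y i : N), ?_, fun i => (y i).2⟩
  rw [hφ']
  rw [← S.subtype.map_formula] at hy
  convert hy using 1
  funext i
  cases i <;> rfl

theorem meets_one (S : L.ElementarySubstructure N) {P : N → Prop}
    (h : Df L (S : Set N) (fun x : Unit → N => P (x ()))) (hne : ∃ x, P x) :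
    ∃ x, P x ∧ x ∈ S := by
  obtain ⟨x, hx⟩ := hne
  obtain ⟨y, hy, hy2⟩ := meets_tuple S h ⟨fun _ => x, hx⟩
  exact ⟨_, hy, hy2 ()⟩

end PALat
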