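import Mathlib
import Pool.Agent.Work.MP_789b02_lc.Dfn

/-!
Collection and bounded representatives in structures with induction.
-/

open FirstOrder FirstOrder.Language Set

universe u v w

namespace PALat

variable {L : FirstOrder.Language.{u, v}} {N : Type w} [L.Structure N]

/-- What is used about a model of PA: a definable linear order with a least element `z0`, a
successor `s`, and induction for predicates definable with parameters. -/
structure Ar (L : FirstOrder.Language.{u, v}) (N : Type w) [L.Structure N] [LinearOrder N]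
    (z0 : N) (s : N → N) : Prop where
  lt_def : Df L (∅ : Set N) (fun x : Fin 2 → N => x 0 < x 1)
  zle : ∀ y, z0 ≤ y
  slt : ∀ x z, z < s x ↔ z ≤ x
  ind : ∀ P : N → Prop, Df L (Set.univ : Set N) (fun x : Unit → N => P (x ())) →
    P z0 → (∀ x, P x → P (s x)) → ∀ x, P x

variable [LinearOrder N] {z0 : N} {s : N → N} {A : Set N} {α β γ δ κ : Type}

namespace Ar

variable (H : Ar L N z0 s)
include H

theorem lt (i j : α) : Df L A (fun x => x i < x j) :=
  (H.lt_def.mono (Set.empty_subset A)).re ![i, j]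

theorem le (i j : α) : Df L A (fun x => x i ≤ x j) :=
  (H.lt j i).not.congr fun _ => not_lt

theorem le_const {a : N} (ha : a ∈ A) (i : α) : Df L A (fun x => x i ≤ a) :=
  Df.param (P := fun x y => x i ≤ y) ha (H.le _ _)

theorem all_le_const [Finite γ] {a : N} (ha : a ∈ A) (f : γ → α) :
    Df L A (fun x => ∀ i, x (f i) ≤ a) :=
  Df.allI (P := fun i (x : α → N) => x (f i) ≤ a) fun i => H.le_const ha _

theorem all_le [Finite γ] (f : γ → α) (j : α) :
    Df L A (fun x => ∀ i, x (f i) ≤ x j) :=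
  Df.allI (P := fun i (x : α → N) => x (f i) ≤ x j) fun i => H.le _ _

theorem le_s (x z : N) : z ≤ s x ↔ z ≤ x ∨ z = s x := by
  rw [le_iff_lt_or_eq, H.slt]

theorem lnp {P : N → Prop} (hP : Df L (Set.univ : Set N) (fun x : Unit → N => P (x ())))
    (hne : ∃ x, P x) : ∃ x, P x ∧ ∀ y, P y → x ≤ y := by
  by_contra hcon
  push Not at hcon
  have key : ∀ x, ∀ y, y ≤ x → ¬ P y := by
    refine H.ind (fun x => ∀ y, y ≤ x → ¬ P y) ?_ ?_ ?_
    · exact Df.all (P := fun x y => y ≤ x () → ¬ P y)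
        ((H.le _ _).imp (hP.re (fun _ => Sum.inr ())).not)
    · intro y hy hPy
      obtain ⟨y', _, hy'⟩ := hcon y hPy
      exact absurd (H.zle y') (not_le.2 (lt_of_lt_of_le hy' hy))
    · intro x ih y hy hPy
      rcases (H.le_s x y).1 hy with h | h
      · exact ih y h hPy
      · obtain ⟨y', hPy', hy'⟩ := hcon y hPy
        rw [h, H.slt] at hy'
        exact ih y' hy' hPy'
  obtain ⟨x, hx⟩ := hne
  exact key x x le_rfl hx

/-- collection, one variable -/
theorem coll1 {P : N → N → Prop}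
    (hP : Df L (Set.univ : Set N) (fun x : Unit ⊕ Unit → N => P (x (Sum.inl ())) (x (Sum.inr ()))))
    (m : N) : ∃ B, ∀ x, x ≤ m → (∃ y, P x y) → ∃ y, y ≤ B ∧ P x y := by
  refine H.ind (fun m => ∃ B, ∀ x, x ≤ m → (∃ y, P x y) → ∃ y, y ≤ B ∧ P x y) ?_ ?_ ?_ m
  · refine Df.ex (P := fun m B => ∀ x, x ≤ m () → (∃ y, P x y) → ∃ y, y ≤ B ∧ P x y) ?_
    refine Df.all (P := fun (w : Unit ⊕ Unit → N) x => x ≤ w (Sum.inl ()) → (∃ y, P x y) →
      ∃ y, y ≤ w (Sum.inr ()) ∧ P x y) ?_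
    refine (H.le _ _).imp (Df.imp ?_ ?_)
    · refine Df.ex (P := fun (w : (Unit ⊕ Unit) ⊕ Unit → N) y => P (w (Sum.inr ())) y) ?_
      exact hP.re (Sum.elim (fun _ => Sum.inl (Sum.inr ())) (fun _ => Sum.inr ()))
    · refine Df.ex (P := fun (w : (Unit ⊕ Unit) ⊕ Unit → N) y =>
        y ≤ w (Sum.inl (Sum.inr ())) ∧ P (w (Sum.inr ())) y) ?_
      refine (H.le _ _).and ?_
      exact hP.re (Sum.elim (fun _ => Sum.inl (Sum.inr ())) (fun _ => Sum.inr ()))
  · by_cases h : ∃ y, P z0 y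
    · obtain ⟨y, hy⟩ := h
      refine ⟨y, fun x hx _ => ⟨y, le_rfl, ?_⟩⟩
      rwa [le_antisymm hx (H.zle x)]
    · refine ⟨z0, fun x hx h' => absurd ?_ h⟩
      rwa [le_antisymm hx (H.zle x)] at h'
  · rintro x ⟨B, hB⟩
    by_cases h : ∃ y, P (s x) y
    · obtain ⟨y, hy⟩ := h
      refine ⟨max B y, fun x' hx' hex => ?_⟩
      rcases (H.le_s x x').1 hx' with h1 | h1
      · obtain ⟨y', hy', hP'⟩ := hB x' h1 hex
        exact ⟨y', hy'.trans (le_max_left _ _), hP'⟩
      · exact ⟨y, le_max_right _ _, h1 ▸ hy⟩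
    · refine ⟨B, fun x' hx' hex => ?_⟩
      rcases (H.le_s x x').1 hx' with h1 | h1
      · exact hB x' h1 hex
      · exact absurd (h1 ▸ hex) h

end Ar

/-- prepend a value -/
def oc (t : N) (x : α → N) : Option α → N := fun o => o.elim t x

omit [LinearOrder N] [L.Structure N] in
theorem oc_eta (x : Option α → N) : oc (x none) (fun i => x (some i)) = x := by
  funext o
  cases o <;> rfl

/-- index map for a tuple that starts with a new value -/
def ocf (t : β) (x : α → β) : Option α → β := fun o => o.elim t x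

omit [LinearOrder N] [L.Structure N] in
theorem comp_ocf (w : β → N) (t : β) (x : α → β) :
    w ∘ ocf t x = oc (w t) (fun i => w (x i)) := by
  funext o
  cases o <;> rfl

namespace Ar

variable (H : Ar L N z0 s)
include H

/-- collection for tuples, one witness -/
theorem coll (γ : Type) [Finite γ] : ∀ {P : (γ → N) → N → Prop},
    Df L (Set.univ : Set N) (fun x : γ ⊕ Unit → N => P (x ∘ Sum.inl) (x (Sum.inr ()))) →
    ∀ m : N, ∃ B, ∀ x : γ → N, (∀ i, x i ≤ m) → (∃ y, P x y) → ∃ y, y ≤ B ∧ P x y := by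
  induction γ using Finite.induction_empty_option with
  | of_equiv e ih =>
    intro P hP m
    obtain ⟨B, hB⟩ := @ih (fun x y => P (x ∘ e.symm) y)
      (hP.re (Sum.map e.symm id)) m
    refine ⟨B, fun x hx hex => ?_⟩
    have h1 : (x ∘ e) ∘ e.symm = x := by
      funext i
      simp
    have := hB (x ∘ e) (fun i => hx _)
    simp only [h1] at this
    exact this hex
  | h_empty =>
    intro P hP m
    by_cases h : ∃ y, P default y
    · obtain ⟨y, hy⟩ := h
      refine ⟨y, fun x _ _ => ⟨y, le_rfl, ?_⟩⟩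
      rwa [Subsingleton.elim x default]
    · refine ⟨z0, fun x _ h' => absurd ?_ h⟩
      rwa [Subsingleton.elim x default] at h'
  | @h_option α _ ih =>
    intro P hP m
    have h1 : ∀ t, ∃ B, ∀ x : α → N, (∀ i, x i ≤ m) → (∃ y, P (oc t x) y) →
        ∃ y, y ≤ B ∧ P (oc t x) y := by
      intro t
      refine @ih (fun x y => P (oc t x) y) ?_ m
      refine Df.param (P := fun (w : α ⊕ Unit → N) t => P (oc t (w ∘ Sum.inl)) (w (Sum.inr ())))
        (Set.mem_univ t) ?_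
      refine (hP.re (Sum.elim (ocf (Sum.inr ()) (fun i => Sum.inl (Sum.inl i)))
        (fun _ => Sum.inl (Sum.inr ())))).congr fun w => ?_
      rw [Function.comp_assoc, Sum.elim_comp_inl, comp_ocf]
      rfl
    obtain ⟨B, hB⟩ := @Ar.coll1 L N _ _ z0 s H (fun t B => ∀ x : α → N, (∀ i, x i ≤ m) →
      (∃ y, P (oc t x) y) → ∃ y, y ≤ B ∧ P (oc t x) y) (by
        refine Df.allF (P := fun (w : Unit ⊕ Unit → N) (x : α → N) => (∀ i, x i ≤ m) →
          (∃ y, P (oc (w (Sum.inl ())) x) y) →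
            ∃ y, y ≤ w (Sum.inr ()) ∧ P (oc (w (Sum.inl ())) x) y) ?_
        refine (H.all_le_const (Set.mem_univ m) _).imp (Df.imp ?_ ?_)
        · refine Df.ex (P := fun (w : (Unit ⊕ Unit) ⊕ α → N) y =>
            P (oc (w (Sum.inl (Sum.inl ()))) (w ∘ Sum.inr)) y) ?_
          refine (hP.re (Sum.elim (ocf (Sum.inl (Sum.inl (Sum.inl ())))
            (fun i => Sum.inl (Sum.inr i))) (fun _ => Sum.inr ()))).congr fun w => ?_
          rw [Function.comp_assoc, Sum.elim_comp_inl, comp_ocf]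
          rfl
        · refine Df.ex (P := fun (w : (Unit ⊕ Unit) ⊕ α → N) y =>
            y ≤ w (Sum.inl (Sum.inr ())) ∧
            P (oc (w (Sum.inl (Sum.inl ()))) (w ∘ Sum.inr)) y) ?_
          refine (H.le _ _).and ?_
          refine (hP.re (Sum.elim (ocf (Sum.inl (Sum.inl (Sum.inl ())))
            (fun i => Sum.inl (Sum.inr i))) (fun _ => Sum.inr ()))).congr fun w => ?_
          rw [Function.comp_assoc, Sum.elim_comp_inl, comp_ocf]
          rfl) m
    refine ⟨B, fun x hx hex => ?_⟩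
    obtain ⟨B', hB', hB2⟩ := hB (x none) (hx none) (h1 (x none))
    have := hB2 (fun i => x (some i)) (fun i => hx _)
    rw [oc_eta] at this
    obtain ⟨y, hy, hPy⟩ := this hex
    exact ⟨y, hy.trans hB', hPy⟩

/-- collection for tuples, with a tuple as witness -/
theorem collF [Finite γ] [Finite δ] {P : (γ → N) → (δ → N) → Prop}
    (hP : Df L (Set.univ : Set N) (fun x : γ ⊕ δ → N => P (x ∘ Sum.inl) (x ∘ Sum.inr)))
    (m : N) : ∃ B, ∀ x : γ → N, (∀ i, x i ≤ m) → (∃ y, P x y) →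
      ∃ y, (∀ j, y j ≤ B) ∧ P x y := by
  obtain ⟨B, hB⟩ := H.coll γ (P := fun x b => ∃ y : δ → N, (∀ j, y j ≤ b) ∧ P x y) (by
    refine Df.exF (P := fun (w : γ ⊕ Unit → N) (y : δ → N) =>
      (∀ j, y j ≤ w (Sum.inr ())) ∧ P (w ∘ Sum.inl) y) ?_
    refine (H.all_le _ _).and ?_
    refine (hP.re (Sum.elim (fun i => Sum.inl (Sum.inl i)) Sum.inr)).congr fun w => ?_
    rfl) m
  refine ⟨B, fun x hx ⟨y, hy⟩ => ?_⟩
  have hne : Nonempty N := ⟨z0⟩
  obtain ⟨b, hb⟩ := Finite.exists_le y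
  obtain ⟨b', hb', y', hy', hPy'⟩ := hB x hx ⟨b, y, hb, hy⟩
  exact ⟨y', fun j => (hy' j).trans hb', hPy'⟩

end Ar

/-- every class has a representative below a common bound -/
def Bd (E : (γ → N) → (γ → N) → Prop) : Prop :=
  ∃ B, ∀ c, ∃ c', (∀ j, c' j ≤ B) ∧ E c c'

namespace Ar

variable (H : Ar L N z0 s)
include H

theorem comb [Finite γ] {E1 E2 : (γ → N) → (γ → N) → Prop}
    (h1 : Df L (Set.univ : Set N) (fun x : γ ⊕ γ → N => E1 (x ∘ Sum.inl) (x ∘ Sum.inr)))
    (h2 : Df L (Set.univ : Set N) (fun x : γ ⊕ γ → N => E2 (x ∘ Sum.inl) (x ∘ Sum.inr)))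
    (s1 : ∀ c c', E1 c c' → E1 c' c) (s2 : ∀ c c', E2 c c' → E2 c' c)
    (t1 : ∀ c c' c'', E1 c c' → E1 c' c'' → E1 c c'')
    (t2 : ∀ c c' c'', E2 c c' → E2 c' c'' → E2 c c'')
    (b1 : Bd E1) (b2 : Bd E2) : Bd (fun c c' => E1 c c' ∧ E2 c c') := by
  obtain ⟨B1, hB1⟩ := b1
  obtain ⟨B2, hB2⟩ := b2
  obtain ⟨B, hB⟩ := H.collF (γ := γ ⊕ γ) (δ := γ)
    (P := fun x c => E1 (x ∘ Sum.inl) c ∧ E2 (x ∘ Sum.inr) c) (by
      refine Df.and ?_ ?_
      · exact h1.re (Sum.elim (fun i => Sum.inl (Sum.inl i)) Sum.inr)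
      · exact h2.re (Sum.elim (fun i => Sum.inl (Sum.inr i)) Sum.inr)) (max B1 B2)
  refine ⟨B, fun c => ?_⟩
  obtain ⟨r1, hr1, hE1⟩ := hB1 c
  obtain ⟨r2, hr2, hE2⟩ := hB2 c
  obtain ⟨c', hc', hE1', hE2'⟩ := hB (Sum.elim r1 r2) (by
    rintro (i | i)
    · exact (hr1 i).trans (le_max_left _ _)
    · exact (hr2 i).trans (le_max_right _ _)) ⟨c, s1 _ _ hE1, s2 _ _ hE2⟩
  exact ⟨c', hc', t1 _ _ _ hE1 hE1', t2 _ _ _ hE2 hE2'⟩

/-- bounded representatives for finite traces -/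
theorem trace [Finite γ] (κ : Type) [Finite κ] : ∀ {θ : (κ → N) → (γ → N) → Prop},
    Df L (Set.univ : Set N) (fun x : κ ⊕ γ → N => θ (x ∘ Sum.inl) (x ∘ Sum.inr)) →
    ∀ m : N, Bd (fun c c' => ∀ y : κ → N, (∀ i, y i ≤ m) → (θ y c ↔ θ y c')) := by
  induction κ using Finite.induction_empty_option with
  | of_equiv e ih =>
    intro θ hθ m
    obtain ⟨B, hB⟩ := @ih (fun y c => θ (y ∘ e.symm) c) (hθ.re (Sum.map e.symm id)) m
    refine ⟨B, fun c => ?_⟩
    obtain ⟨c', hc', h⟩ := hB c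
    refine ⟨c', hc', fun y hy => ?_⟩
    have h1 : (y ∘ e) ∘ e.symm = y := by
      funext i
      simp
    have := h (y ∘ e) (fun i => hy _)
    simpa only [h1] using this
  | h_empty =>
    intro θ hθ m
    have hne : Nonempty N := ⟨z0⟩
    have h1 : ∃ B1, ∀ c : γ → N, θ default c → ∃ c' : γ → N, (∀ j, c' j ≤ B1) ∧ θ default c' := by
      by_cases h : ∃ c : γ → N, θ default c
      · obtain ⟨c', hc'⟩ := h
        obtain ⟨b, hb⟩ := Finite.exists_le c'
        exact ⟨b, fun c _ => ⟨c', hb, hc'⟩⟩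
      · exact ⟨z0, fun c hc => absurd ⟨c, hc⟩ h⟩
    have h2 : ∃ B2, ∀ c : γ → N, ¬ θ default c →
        ∃ c' : γ → N, (∀ j, c' j ≤ B2) ∧ ¬ θ default c' := by
      by_cases h : ∃ c : γ → N, ¬ θ default c
      · obtain ⟨c', hc'⟩ := h
        obtain ⟨b, hb⟩ := Finite.exists_le c'
        exact ⟨b, fun c _ => ⟨c', hb, hc'⟩⟩
      · exact ⟨z0, fun c hc => absurd ⟨c, hc⟩ h⟩
    obtain ⟨B1, hB1⟩ := h1
    obtain ⟨B2, hB2⟩ := h2
    refine ⟨max B1 B2, fun c => ?_⟩
    by_cases hc : θ default c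
    · obtain ⟨c', hc', h⟩ := hB1 c hc
      refine ⟨c', fun j => (hc' j).trans (le_max_left _ _), fun y _ => ?_⟩
      rw [Subsingleton.elim y default]
      exact ⟨fun _ => h, fun _ => hc⟩
    · obtain ⟨c', hc', h⟩ := hB2 c hc
      refine ⟨c', fun j => (hc' j).trans (le_max_right _ _), fun y _ => ?_⟩
      rw [Subsingleton.elim y default]
      exact ⟨fun h' => absurd h' hc, fun h' => absurd h' h⟩
  | @h_option α _ ih =>
    intro θ hθ m
    -- definability of the basic relation with a parameter for the first entry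
    have hd1 : ∀ t : N, Df L (Set.univ : Set N)
        (fun x : α ⊕ γ → N => θ (oc t (x ∘ Sum.inl)) (x ∘ Sum.inr)) := by
      intro t
      refine Df.param (P := fun (w : α ⊕ γ → N) t => θ (oc t (w ∘ Sum.inl)) (w ∘ Sum.inr))
        (Set.mem_univ t) ?_
      refine (hθ.re (Sum.elim (ocf (Sum.inr ()) (fun i => Sum.inl (Sum.inl i)))
        (fun j => Sum.inl (Sum.inr j)))).congr fun w => ?_
      rw [Function.comp_assoc, Sum.elim_comp_inl, comp_ocf]
      rfl
    have hE2 : ∀ t : N, Df L (Set.univ : Set N) (fun x : γ ⊕ γ → N =>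
        ∀ y : α → N, (∀ i, y i ≤ m) → (θ (oc t y) (x ∘ Sum.inl) ↔ θ (oc t y) (x ∘ Sum.inr))) := by
      intro t
      refine Df.allF (P := fun (x : γ ⊕ γ → N) (y : α → N) => (∀ i, y i ≤ m) →
        (θ (oc t y) (x ∘ Sum.inl) ↔ θ (oc t y) (x ∘ Sum.inr))) ?_
      refine (H.all_le_const (Set.mem_univ m) _).imp (Df.iff ?_ ?_)
      · exact (hd1 t).re (Sum.elim Sum.inr (fun i => Sum.inl (Sum.inl i)))
      · exact (hd1 t).re (Sum.elim Sum.inr (fun i => Sum.inl (Sum.inr i)))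
    have hd2 : Df L (Set.univ : Set N) (fun w : (Unit ⊕ α) ⊕ γ → N =>
        θ (oc (w (Sum.inl (Sum.inl ()))) (fun i => w (Sum.inl (Sum.inr i)))) (w ∘ Sum.inr)) := by
      refine (hθ.re (Sum.elim (ocf (Sum.inl (Sum.inl ())) (fun i => Sum.inl (Sum.inr i)))
        (fun j => Sum.inr j))).congr fun w => ?_
      rw [Function.comp_assoc, Sum.elim_comp_inl, comp_ocf]
      rfl
    have key : ∀ u, Bd (fun (c c' : γ → N) => ∀ t, t ≤ u → ∀ y : α → N, (∀ i, y i ≤ m) →
        (θ (oc t y) c ↔ θ (oc t y) c')) := by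
      -- the relation, with the bound u as a variable
      have hE : Df L (Set.univ : Set N) (fun w : Unit ⊕ (γ ⊕ γ) → N =>
          ∀ t, t ≤ w (Sum.inl ()) → ∀ y : α → N, (∀ i, y i ≤ m) →
            (θ (oc t y) (fun j => w (Sum.inr (Sum.inl j))) ↔
              θ (oc t y) (fun j => w (Sum.inr (Sum.inr j))))) := by
        refine Df.all (P := fun (w : Unit ⊕ (γ ⊕ γ) → N) t => t ≤ w (Sum.inl ()) →
          ∀ y : α → N, (∀ i, y i ≤ m) →
            (θ (oc t y) (fun j => w (Sum.inr (Sum.inl j))) ↔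
              θ (oc t y) (fun j => w (Sum.inr (Sum.inr j))))) ?_
        refine (H.le _ _).imp ?_
        refine Df.allF (P := fun (w : (Unit ⊕ (γ ⊕ γ)) ⊕ Unit → N) (y : α → N) =>
          (∀ i, y i ≤ m) →
            (θ (oc (w (Sum.inr ())) y) (fun j => w (Sum.inl (Sum.inr (Sum.inl j)))) ↔
              θ (oc (w (Sum.inr ())) y) (fun j => w (Sum.inl (Sum.inr (Sum.inr j)))))) ?_
        refine (H.all_le_const (Set.mem_univ m) _).imp (Df.iff ?_ ?_)
        · exact hd2.re (Sum.elim (Sum.elim (fun _ => Sum.inl (Sum.inr ())) (fun i => Sum.inr i))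
            (fun j => Sum.inl (Sum.inl (Sum.inr (Sum.inl j)))))
        · exact hd2.re (Sum.elim (Sum.elim (fun _ => Sum.inl (Sum.inr ())) (fun i => Sum.inr i))
            (fun j => Sum.inl (Sum.inl (Sum.inr (Sum.inr j)))))
      refine H.ind _ ?_ ?_ ?_
      · unfold Bd
        refine Df.ex (P := fun (w : Unit → N) B => ∀ c : γ → N, ∃ c' : γ → N,
          (∀ j, c' j ≤ B) ∧ ∀ t, t ≤ w () → ∀ y : α → N, (∀ i, y i ≤ m) →
            (θ (oc t y) c ↔ θ (oc t y) c')) ?_
        refine Df.allF (P := fun (w : Unit ⊕ Unit → N) (c : γ → N) => ∃ c' : γ → N,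
          (∀ j, c' j ≤ w (Sum.inr ())) ∧ ∀ t, t ≤ w (Sum.inl ()) → ∀ y : α → N,
            (∀ i, y i ≤ m) → (θ (oc t y) c ↔ θ (oc t y) c')) ?_
        refine Df.exF (P := fun (w : (Unit ⊕ Unit) ⊕ γ → N) (c' : γ → N) =>
          (∀ j, c' j ≤ w (Sum.inl (Sum.inr ()))) ∧ ∀ t, t ≤ w (Sum.inl (Sum.inl ())) →
            ∀ y : α → N, (∀ i, y i ≤ m) → (θ (oc t y) (w ∘ Sum.inr) ↔ θ (oc t y) c')) ?_
        refine (H.all_le _ _).and ?_
        exact hE.re (Sum.elim (fun _ => Sum.inl (Sum.inl (Sum.inl ())))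
          (Sum.elim (fun j => Sum.inl (Sum.inr j)) (fun j => Sum.inr j)))
      · obtain ⟨B, hB⟩ := @ih (fun y c => θ (oc z0 y) c) (hd1 z0) m
        refine ⟨B, fun c => ?_⟩
        obtain ⟨c', hc', h⟩ := hB c
        refine ⟨c', hc', fun t ht y hy => ?_⟩
        rw [le_antisymm ht (H.zle t)]
        exact h y hy
      · intro u hu
        have h2 := @ih (fun y c => θ (oc (s u) y) c) (hd1 (s u)) m
        have h3 := H.comb (E1 := fun c c' => ∀ t, t ≤ u → ∀ y : α → N, (∀ i, y i ≤ m) →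
          (θ (oc t y) c ↔ θ (oc t y) c'))
          (E2 := fun c c' => ∀ y : α → N, (∀ i, y i ≤ m) →
            (θ (oc (s u) y) c ↔ θ (oc (s u) y) c')) (by
            refine Df.param (P := fun (x : γ ⊕ γ → N) u => ∀ t, t ≤ u → ∀ y : α → N,
              (∀ i, y i ≤ m) → (θ (oc t y) (x ∘ Sum.inl) ↔ θ (oc t y) (x ∘ Sum.inr)))
              (Set.mem_univ u) ?_
            exact hE.re (Sum.elim (fun _ => Sum.inr ())
              (Sum.elim (fun j => Sum.inl (Sum.inl j)) (fun j => Sum.inl (Sum.inr j)))))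
          (hE2 (s u))
          (fun c c' h t ht y hy => (h t ht y hy).symm) (fun c c' h y hy => (h y hy).symm)
          (fun c c' c'' h h' t ht y hy => (h t ht y hy).trans (h' t ht y hy))
          (fun c c' c'' h h' y hy => (h y hy).trans (h' y hy)) hu h2
        obtain ⟨B, hB⟩ := h3
        refine ⟨B, fun c => ?_⟩
        obtain ⟨c', hc', h4, h5⟩ := hB c
        refine ⟨c', hc', fun t ht y hy => ?_⟩
        rcases (H.le_s u t).1 ht with h6 | h6
        · exact h4 t h6 y hy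
        · rw [h6]
          exact h5 y hy
    obtain ⟨B, hB⟩ := key m
    refine ⟨B, fun c => ?_⟩
    obtain ⟨c', hc', h⟩ := hB c
    refine ⟨c', hc', fun y hy => ?_⟩
    have := h (y none) (hy none) (fun i => y (some i)) (fun i => hy _)
    rwa [oc_eta] at this

end Ar

end PALat
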