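import Mathlib
import Pool.Agent.Work.MP_789b02_lc.Arith

/-!
Elementary substructures of structures with induction: intersections, definable closures,
downward closures, and the main lemma.
-/

open FirstOrder FirstOrder.Language Set

universe u v w

namespace PALat

variable {L : FirstOrder.Language.{u, v}} {N : Type w} [L.Structure N]
variable {A : Set N} {α β γ δ κ : Type}

theorem Df.of_one {D : Set N} (h : A.Definable₁ L D) :
    Df L A (fun x : Unit → N => x () ∈ D) := by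
  have h' : Df L A (fun x : Fin 1 → N => x 0 ∈ D) := h
  exact h'.re (fun _ => ())

/-- the elementary substructure carried by a set that meets definable sets -/
theorem exists_sub {A : Set N} (h : L.MeetsDefinable A) :
    ∃ S : L.ElementarySubstructure N, ∀ x, x ∈ S ↔ x ∈ A := by
  refine ⟨h.toElementarySubstructure, fun x => ?_⟩
  have h1 := h.closure_eq_self
  have h2 : ((h.toElementarySubstructure : L.ElementarySubstructure N) : Set N) = A := h1
  rw [← SetLike.mem_coe, h2]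

theorem mem_of_df (S : L.ElementarySubstructure N) {x : N}
    (h : Df L (S : Set N) (fun y : Unit → N => y () = x)) : x ∈ S := by
  obtain ⟨y, hy, hyS⟩ := meets_one S (P := fun y => y = x) h ⟨x, rfl⟩
  rwa [← hy]

variable [LinearOrder N] {z0 : N} {s : N → N}

namespace Ar

variable (H : Ar L N z0 s)
include H

/-- the least element of a nonempty definable set, with its definition -/
theorem least {P : N → Prop} (hP : Df L A (fun x : Unit → N => P (x ()))) (hne : ∃ x, P x) :
    ∃ x, P x ∧ Df L A (fun y : Unit → N => y () = x) := by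
  obtain ⟨x, hx, hmin⟩ := H.lnp (hP.mono (Set.subset_univ A)) hne
  refine ⟨x, hx, ?_⟩
  have h1 : Df L A (fun y : Unit → N => P (y ()) ∧ ∀ z, P z → y () ≤ z) := by
    refine hP.and ?_
    refine Df.all (P := fun (y : Unit → N) z => P z → y () ≤ z) ?_
    exact (hP.re (fun _ => Sum.inr ())).imp (H.le _ _)
  refine h1.congr fun y => ⟨fun h => le_antisymm (h.2 x hx) (hmin _ h.1), fun h => ?_⟩
  rw [h]
  exact ⟨hx, hmin⟩

theorem meets_of_least {A : Set N}
    (h : ∀ x, Df L A (fun y : Unit → N => y () = x) → x ∈ A) : L.MeetsDefinable A := by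
  intro D hne hD
  obtain ⟨x, hx, hdx⟩ := H.least (P := fun x => x ∈ D) (Df.of_one hD) hne
  exact ⟨x, hx, h x hdx⟩

theorem exists_inter (S T : L.ElementarySubstructure N) :
    ∃ R : L.ElementarySubstructure N, ∀ x, x ∈ R ↔ x ∈ S ∧ x ∈ T := by
  refine exists_sub (A := (S : Set N) ∩ T) (H.meets_of_least fun x hx => ?_)
  exact ⟨mem_of_df S (hx.mono Set.inter_subset_left),
    mem_of_df T (hx.mono Set.inter_subset_right)⟩

/-- definable closure -/
theorem exists_dcl (A : Set N) :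
    ∃ R : L.ElementarySubstructure N, ∀ x, x ∈ R ↔ Df L A (fun y : Unit → N => y () = x) := by
  refine exists_sub (A := {x | Df L A (fun y : Unit → N => y () = x)})
    (H.meets_of_least fun x hx => ?_)
  obtain ⟨n, p, hp, φ, hφ⟩ := hx.exists_formula
  change Df L A (fun y : Unit → N => y () = x)
  have h1 : Df L A (fun y : Unit → N => ∃ u : Fin n → N, (∀ i, u i = p i) ∧
      φ.Realize (Sum.elim u y)) := by
    refine Df.exF (P := fun (y : Unit → N) (u : Fin n → N) => (∀ i, u i = p i) ∧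
      φ.Realize (Sum.elim u y)) ?_
    refine Df.and ?_ ?_
    · refine Df.allI (P := fun i (w : Unit ⊕ Fin n → N) => w (Sum.inr i) = p i) fun i => ?_
      have h2 : Df L A (fun y : Unit → N => y () = p i) := hp i
      exact h2.re (fun _ => Sum.inr i)
    · refine ((Df.formula φ).re (Sum.elim Sum.inr Sum.inl)).congr fun w => ?_
      have h3 : w ∘ Sum.elim (Sum.inr : Fin n → Unit ⊕ Fin n) Sum.inl
          = Sum.elim (w ∘ Sum.inr) (w ∘ Sum.inl) := by
        funext i
        cases i <;> rfl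
      rw [h3]
  refine h1.congr fun y => ?_
  rw [hφ y]
  constructor
  · rintro ⟨u, hu, h⟩
    rwa [show u = p from funext hu] at h
  · intro h
    exact ⟨_, fun _ => rfl, h⟩

omit H in
/-- finitely many elements below elements of an elementary substructure have a common bound
in it -/
theorem fin_bound (S : L.ElementarySubstructure N) [Finite γ] (m0 : N) (hm0 : m0 ∈ S)
    (x : γ → N) (hx : ∀ i, ∃ m ∈ S, x i ≤ m) : ∃ m ∈ S, m0 ≤ m ∧ ∀ i, x i ≤ m := by
  classical
  have := Fintype.ofFinite γ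
  choose g hg hg2 using hx
  have hfin : ∀ F : Finset γ, ∃ m ∈ S, m0 ≤ m ∧ ∀ a ∈ F, x a ≤ m := by
    intro F
    induction F using Finset.induction_on with
    | empty => exact ⟨m0, hm0, le_rfl, by simp⟩
    | insert a F _ ih =>
      obtain ⟨m, hm, h0, h⟩ := ih
      rcases le_total m (g a) with h' | h'
      · refine ⟨g a, hg a, h0.trans h', fun b hb => ?_⟩
        rcases Finset.mem_insert.1 hb with rfl | hb
        · exact hg2 _
        · exact (h b hb).trans h'
      · refine ⟨m, hm, h0, fun b hb => ?_⟩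
        rcases Finset.mem_insert.1 hb with rfl | hb
        · exact (hg2 _).trans h'
        · exact h b hb
  obtain ⟨m, hm, h0, h⟩ := hfin Finset.univ
  exact ⟨m, hm, h0, fun a => h a (Finset.mem_univ a)⟩

omit [LinearOrder N] H in
theorem sub_nonempty [Nonempty N] (S : L.ElementarySubstructure N) : ∃ m, m ∈ S := by
  obtain ⟨y, -, hy⟩ := meets_one S (P := fun y : N => y = y) (Df.eq _ _) ⟨Classical.arbitrary N, rfl⟩
  exact ⟨y, hy⟩

/-- The downward closure of an elementary substructure is an elementary substructure. -/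
theorem exists_sup (S : L.ElementarySubstructure N) :
    ∃ R : L.ElementarySubstructure N, ∀ x, x ∈ R ↔ ∃ m ∈ S, x ≤ m := by
  have hneN : Nonempty N := ⟨z0⟩
  refine exists_sub (A := {x | ∃ m ∈ S, x ≤ m}) ?_
  intro D hne hD
  obtain ⟨n, p, hp, φ, hφ⟩ := (Df.of_one hD).exists_formula
  -- a bound for the parameters
  obtain ⟨m0, hm0⟩ := sub_nonempty (L := L) S
  obtain ⟨m, hmS, -, hm⟩ := fin_bound S m0 hm0 p hp
  have hP : ∀ B : Set N, Df L B (fun w : Fin n ⊕ Unit → N => φ.Realize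
      (Sum.elim (w ∘ Sum.inl) (fun _ => w (Sum.inr ())))) := by
    intro B
    refine (Df.formula φ).congr fun w => ?_
    have : w = Sum.elim (w ∘ Sum.inl) (fun _ => w (Sum.inr ())) := by
      funext i
      rcases i with i | i <;> rfl
    rw [← this]
  obtain ⟨B, hB, hBS⟩ := meets_one S (P := fun B => ∀ x : Fin n → N, (∀ i, x i ≤ m) →
    (∃ y, φ.Realize (Sum.elim x (fun _ : Unit => y))) →
      ∃ y, y ≤ B ∧ φ.Realize (Sum.elim x (fun _ : Unit => y))) (by
    refine Df.allF (P := fun (B : Unit → N) (x : Fin n → N) => (∀ i, x i ≤ m) →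
      (∃ y, φ.Realize (Sum.elim x (fun _ : Unit => y))) →
        ∃ y, y ≤ B () ∧ φ.Realize (Sum.elim x (fun _ : Unit => y))) ?_
    refine (H.all_le_const hmS _).imp (Df.imp ?_ ?_)
    · refine Df.ex (P := fun (w : Unit ⊕ Fin n → N) y =>
        φ.Realize (Sum.elim (w ∘ Sum.inr) (fun _ : Unit => y))) ?_
      exact (hP _).re (Sum.elim (fun i => Sum.inl (Sum.inr i)) (fun _ => Sum.inr ()))
    · refine Df.ex (P := fun (w : Unit ⊕ Fin n → N) y => y ≤ w (Sum.inl ()) ∧
        φ.Realize (Sum.elim (w ∘ Sum.inr) (fun _ : Unit => y))) ?_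
      refine (H.le _ _).and ?_
      exact (hP _).re (Sum.elim (fun i => Sum.inl (Sum.inr i)) (fun _ => Sum.inr ())))
    (H.coll (Fin n) (P := fun x y => φ.Realize (Sum.elim x (fun _ : Unit => y))) (hP _) m)
  obtain ⟨d, hd⟩ := hne
  obtain ⟨y, hy, hyφ⟩ := hB p hm ⟨d, (hφ (fun _ => d)).1 hd⟩
  exact ⟨y, (hφ (fun _ => y)).2 hyφ, B, hBS, hy⟩

/-- The main lemma: let `S0 ⊆ Sa`, `S0 ⊆ Sc` be elementary submodels such that `S0` is an initial
segment of `Sc` and `S0` is cofinal in `Sa`. Then every `b` below an element of `S0` that belongs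
to all elementary submodels containing `Sa` and `Sc` belongs to `Sa`. -/
theorem main {S0 Sa Sc : L.ElementarySubstructure N}
    (h0a : ∀ x, x ∈ S0 → x ∈ Sa) (h0c : ∀ x, x ∈ S0 → x ∈ Sc)
    (hinit : ∀ x ∈ Sc, ∀ m ∈ S0, x ≤ m → x ∈ S0)
    (hcof : ∀ x ∈ Sa, ∃ m ∈ S0, x ≤ m) (b : N) (hb : ∃ m ∈ S0, b ≤ m)
    (hjoin : ∀ T : L.ElementarySubstructure N, (∀ x, x ∈ Sa → x ∈ T) → (∀ x, x ∈ Sc → x ∈ T) →
      b ∈ T) : b ∈ Sa := by
  obtain ⟨T, hT⟩ := H.exists_dcl ((Sa : Set N) ∪ Sc)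
  have hbT := hjoin T (fun x hx => (hT x).2 (Df.const (Set.mem_union_left _ hx) _))
    (fun x hx => (hT x).2 (Df.const (Set.mem_union_right _ hx) _))
  rw [hT] at hbT
  obtain ⟨n, p, hp, φ, hφ⟩ := hbT.exists_formula
  -- split the parameters
  let κ := {i : Fin n // p i ∈ Sa}
  let γ := {i : Fin n // p i ∉ Sa}
  have hγ : ∀ i : γ, p i.1 ∈ Sc := fun i => (hp i.1).resolve_left i.2
  classical
  let g : Fin n ⊕ Unit → (Option κ) ⊕ γ := Sum.elim
    (fun i => if h : p i ∈ Sa then Sum.inl (some ⟨i, h⟩) else Sum.inr ⟨i, h⟩)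
    (fun _ => Sum.inl none)
  let θ : (Option κ → N) → (γ → N) → Prop := fun y c => φ.Realize (Sum.elim y c ∘ g)
  have hθ : ∀ B : Set N, Df L B (fun x : Option κ ⊕ γ → N => θ (x ∘ Sum.inl) (x ∘ Sum.inr)) := by
    intro B
    refine ((Df.formula φ).re g).congr fun w => ?_
    have : w = Sum.elim (w ∘ Sum.inl) (w ∘ Sum.inr) := by
      funext i
      rcases i with i | i <;> rfl
    change _ ↔ φ.Realize (Sum.elim (w ∘ Sum.inl) (w ∘ Sum.inr) ∘ g)
    rw [← this]
  let y0 : κ → N := fun i => p i.1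
  let c0 : γ → N := fun i => p i.1
  have hval : ∀ x : N, θ (oc x y0) c0 ↔ x = b := by
    intro x
    have h1 := hφ (fun _ => x)
    change φ.Realize (Sum.elim (oc x y0) c0 ∘ g) ↔ x = b
    rw [h1]
    have : Sum.elim (oc x y0) c0 ∘ g = Sum.elim p (fun _ : Unit => x) := by
      funext i
      rcases i with i | i
      · by_cases h : p i ∈ Sa
        · simp [g, h, oc, y0]
        · simp [g, h, c0]
      · rfl
    rw [this]
  -- a bound m in S0
  obtain ⟨mb, hmb, hbm'⟩ := hb
  obtain ⟨m, hmS, hbm'', hym⟩ := fin_bound S0 mb hmb y0 (fun i => hcof _ i.2)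
  have hbm : b ≤ m := hbm'.trans hbm''
  -- a bound B in S0 for representatives
  have hrel : ∀ B : Set N, m ∈ B → Df L B (fun w : γ ⊕ γ → N => ∀ y : Option κ → N,
      (∀ i, y i ≤ m) → (θ y (w ∘ Sum.inl) ↔ θ y (w ∘ Sum.inr))) := by
    intro B hmB
    refine Df.allF (P := fun (w : γ ⊕ γ → N) (y : Option κ → N) =>
      (∀ i, y i ≤ m) → (θ y (w ∘ Sum.inl) ↔ θ y (w ∘ Sum.inr))) ?_
    refine (H.all_le_const hmB _).imp (Df.iff ?_ ?_)
    · exact (hθ B).re (Sum.elim Sum.inr (fun i => Sum.inl (Sum.inl i)))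
    · exact (hθ B).re (Sum.elim Sum.inr (fun i => Sum.inl (Sum.inr i)))
  obtain ⟨B, hB, hBS⟩ := meets_one S0 (P := fun B => ∀ c : γ → N, ∃ c' : γ → N,
    (∀ j, c' j ≤ B) ∧ ∀ y : Option κ → N, (∀ i, y i ≤ m) → (θ y c ↔ θ y c')) (by
    refine Df.allF (P := fun (B : Unit → N) (c : γ → N) => ∃ c' : γ → N,
      (∀ j, c' j ≤ B ()) ∧ ∀ y : Option κ → N, (∀ i, y i ≤ m) → (θ y c ↔ θ y c')) ?_
    refine Df.exF (P := fun (w : Unit ⊕ γ → N) (c' : γ → N) =>
      (∀ j, c' j ≤ w (Sum.inl ())) ∧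
        ∀ y : Option κ → N, (∀ i, y i ≤ m) → (θ y (w ∘ Sum.inr) ↔ θ y c')) ?_
    refine (H.all_le _ _).and ?_
    exact (hrel _ hmS).re (Sum.elim (fun j => Sum.inl (Sum.inr j)) Sum.inr))
    (H.trace (Option κ) (hθ _) m)
  -- a representative with entries in Sc, hence in S0
  obtain ⟨c', ⟨hc'B, hc'⟩, hc'S⟩ := meets_tuple Sc (P := fun c' : γ → N =>
    (∀ j, c' j ≤ B) ∧ ∀ y : Option κ → N, (∀ i, y i ≤ m) → (θ y c0 ↔ θ y c')) (by
    refine (H.all_le_const (h0c B hBS) _).and ?_
    refine Df.paramF (P := fun (c' c : γ → N) => ∀ y : Option κ → N, (∀ i, y i ≤ m) →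
      (θ y c ↔ θ y c')) (a := c0) hγ ?_
    exact (hrel _ (h0c m hmS)).re (Sum.elim Sum.inr Sum.inl)) (hB c0)
  have hc'0 : ∀ i, c' i ∈ S0 := fun i => hinit _ (hc'S i) B hBS (hc'B i)
  -- b is definable over Sa
  have hdb : ∀ x : N, (x ≤ m ∧ θ (oc x y0) c') ↔ x = b := by
    intro x
    constructor
    · rintro ⟨hx, h⟩
      rw [← hc' (oc x y0) (by rintro (_ | i); exacts [hx, hym i]), hval] at h
      exact h
    · rintro rfl
      refine ⟨hbm, ?_⟩
      rw [← hc' (oc x y0) (by rintro (_ | i); exacts [hbm, hym i]), hval]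
  refine mem_of_df Sa (Df.congr (P := fun x : Unit → N => x () ≤ m ∧ θ (oc (x ()) y0) c') ?_
    fun x => hdb _)
  refine (H.le_const (h0a m hmS) _).and ?_
  refine Df.paramF (P := fun (x : Unit → N) (y : κ → N) => θ (oc (x ()) y) c') (a := y0)
    (fun i => i.2) ?_
  refine Df.paramF (P := fun (w : Unit ⊕ κ → N) (c : γ → N) =>
    θ (oc (w (Sum.inl ())) (w ∘ Sum.inr)) c) (a := c') (fun i => h0a _ (hc'0 i)) ?_
  refine ((hθ _).re (Sum.elim (ocf (Sum.inl (Sum.inl ())) (fun i => Sum.inl (Sum.inr i)))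
    Sum.inr)).congr fun w => ?_
  rw [Function.comp_assoc, Sum.elim_comp_inl, comp_ocf]
  rfl

end Ar

end PALat
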