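import Mathlib
import Pool.Agent.Work.MP_789b02_lc.Defs
import Pool.Agent.Work.MP_789b02_lc.Subs

/-!
Models of `PA` satisfy the abstract hypotheses.
-/

open FirstOrder FirstOrder.Language Set

universe u v

namespace PALat

variable {N : Type v} [LPA.Structure N]

/-- `0` in a structure -/
def vZero (N : Type v) [LPA.Structure N] : N := Structure.funMap (L := LPA) (n := 0) PAFn.zero ![]

/-- `1` in a structure -/
def vOne (N : Type v) [LPA.Structure N] : N := Structure.funMap (L := LPA) (n := 0) PAFn.one ![]

/-- `x + y` in a structure -/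
def vAdd (x y : N) : N := Structure.funMap (L := LPA) (n := 2) PAFn.add ![x, y]

/-- `x * y` in a structure -/
def vMul (x y : N) : N := Structure.funMap (L := LPA) (n := 2) PAFn.mul ![x, y]

section

variable {α : Type} (w : α → N)

@[simp] theorem realize_tZero : (tZero : LPA.Term α).realize w = vZero N := by
  simp only [tZero, Term.realize, vZero]
  congr 1
  funext i
  exact i.elim0

@[simp] theorem realize_tOne : (tOne : LPA.Term α).realize w = vOne N := by
  simp only [tOne, Term.realize, vOne]
  congr 1
  funext i
  exact i.elim0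

@[simp] theorem realize_tAdd (t s : LPA.Term α) :
    (tAdd t s).realize w = vAdd (t.realize w) (s.realize w) := by
  simp only [tAdd, Term.realize, vAdd]
  congr 1
  funext i
  fin_cases i <;> rfl

@[simp] theorem realize_tMul (t s : LPA.Term α) :
    (tMul t s).realize w = vMul (t.realize w) (s.realize w) := by
  simp only [tMul, Term.realize, vMul]
  congr 1
  funext i
  fin_cases i <;> rfl

@[simp] theorem realize_fLt {n : ℕ} (t s : LPA.Term (Empty ⊕ Fin n)) (v : Empty → N)
    (xs : Fin n → N) :
    (fLt t s).Realize v xs ↔ ltN (t.realize (Sum.elim v xs)) (s.realize (Sum.elim v xs)) := by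
  simp only [fLt, BoundedFormula.realize_rel₂, ltN]

end

section Axioms

variable (hN : N ⊨ PA)
include hN

theorem rax1 (x y : N) : vAdd x y = vAdd y x := by
  have h : N ⊨ PALat.ax1 := hN.realize_of_mem _ (Or.inl (by simp [PAminus]))
  simp only [PALat.ax1, Sentence.Realize, Formula.Realize, BoundedFormula.realize_all,
    BoundedFormula.realize_bdEqual, realize_tAdd, Function.comp_apply, Term.realize_var,
    Sum.elim_inr] at h
  simpa [Fin.snoc] using h x y

theorem rax5 (x : N) : vAdd x (vZero N) = x := by
  have h : N ⊨ PALat.ax5 := hN.realize_of_mem _ (Or.inl (by simp [PAminus]))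
  simp only [PALat.ax5, Sentence.Realize, Formula.Realize, BoundedFormula.realize_all,
    BoundedFormula.realize_inf,
    BoundedFormula.realize_bdEqual, realize_tAdd, realize_tMul, realize_tZero,
    Function.comp_apply, Term.realize_var, Sum.elim_inr] at h
  simpa [Fin.snoc] using (h x).1

theorem rax7 (x y z : N) (h1 : ltN x y) (h2 : ltN y z) : ltN x z := by
  have h : N ⊨ PALat.ax7 := hN.realize_of_mem _ (Or.inl (by simp [PAminus]))
  simp only [PALat.ax7, Sentence.Realize, Formula.Realize, BoundedFormula.realize_all,
    BoundedFormula.realize_imp, BoundedFormula.realize_inf, realize_fLt,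
    Function.comp_apply, Term.realize_var, Sum.elim_inr] at h
  have h3 := h x y z
  simp [Fin.snoc] at h3
  exact h3 h1 h2

theorem rax8 (x : N) : ¬ ltN x x := by
  have h : N ⊨ PALat.ax8 := hN.realize_of_mem _ (Or.inl (by simp [PAminus]))
  simp only [PALat.ax8, Sentence.Realize, Formula.Realize, BoundedFormula.realize_all,
    BoundedFormula.realize_not, realize_fLt,
    Function.comp_apply, Term.realize_var, Sum.elim_inr] at h
  simpa [Fin.snoc] using h x

theorem rax9 (x y : N) : ltN x y ∨ x = y ∨ ltN y x := by
  have h : N ⊨ PALat.ax9 := hN.realize_of_mem _ (Or.inl (by simp [PAminus]))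
  simp only [PALat.ax9, Sentence.Realize, Formula.Realize, BoundedFormula.realize_all,
    BoundedFormula.realize_sup, BoundedFormula.realize_bdEqual, realize_fLt,
    Function.comp_apply, Term.realize_var, Sum.elim_inr] at h
  have h3 := h x y
  simp [Fin.snoc] at h3
  tauto

theorem rax10 (x y z : N) (h1 : ltN x y) : ltN (vAdd x z) (vAdd y z) := by
  have h : N ⊨ PALat.ax10 := hN.realize_of_mem _ (Or.inl (by simp [PAminus]))
  simp only [PALat.ax10, Sentence.Realize, Formula.Realize, BoundedFormula.realize_all,
    BoundedFormula.realize_imp, realize_fLt, realize_tAdd,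
    Function.comp_apply, Term.realize_var, Sum.elim_inr] at h
  have h3 := h x y z
  simp [Fin.snoc] at h3
  exact h3 h1

theorem rax12 (x y : N) (h1 : ltN x y) : ∃ z, vAdd x z = y := by
  have h : N ⊨ PALat.ax12 := hN.realize_of_mem _ (Or.inl (by simp [PAminus]))
  simp only [PALat.ax12, Sentence.Realize, Formula.Realize, BoundedFormula.realize_all,
    BoundedFormula.realize_imp, BoundedFormula.realize_ex, realize_fLt, realize_tAdd,
    BoundedFormula.realize_bdEqual,
    Function.comp_apply, Term.realize_var, Sum.elim_inr] at h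
  have h3 := h x y
  simp [Fin.snoc] at h3
  exact h3 h1

theorem rax13 : ltN (vZero N) (vOne N) ∧
    ∀ x : N, ltN (vZero N) x → ltN (vOne N) x ∨ vOne N = x := by
  have h : N ⊨ PALat.ax13 := hN.realize_of_mem _ (Or.inl (by simp [PAminus]))
  simp only [PALat.ax13, Sentence.Realize, Formula.Realize, BoundedFormula.realize_all,
    BoundedFormula.realize_imp, BoundedFormula.realize_inf, BoundedFormula.realize_sup,
    realize_fLt, realize_tZero, realize_tOne, BoundedFormula.realize_bdEqual,
    Function.comp_apply, Term.realize_var, Sum.elim_inr] at h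
  simpa [Fin.snoc] using h

theorem rax14 (x : N) : ltN (vZero N) x ∨ vZero N = x := by
  have h : N ⊨ PALat.ax14 := hN.realize_of_mem _ (Or.inl (by simp [PAminus]))
  simp only [PALat.ax14, Sentence.Realize, Formula.Realize, BoundedFormula.realize_all,
    BoundedFormula.realize_sup,
    realize_fLt, realize_tZero, BoundedFormula.realize_bdEqual,
    Function.comp_apply, Term.realize_var, Sum.elim_inr] at h
  simpa [Fin.snoc] using h x

/-- the induction axiom, semantically -/
theorem ind_bdd {n : ℕ} (φ : LPA.BoundedFormula Empty (n + 1)) (p : Fin n → N)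
    (h0 : φ.Realize default (Fin.snoc p (vZero N) : Fin (n + 1) → N))
    (h1 : ∀ x : N, φ.Realize default (Fin.snoc p x : Fin (n + 1) → N) →
      φ.Realize default (Fin.snoc p (vAdd x (vOne N)) : Fin (n + 1) → N)) :
    ∀ x : N, φ.Realize default (Fin.snoc p x : Fin (n + 1) → N) := by
  have h : N ⊨ indAx φ := hN.realize_of_mem _ (Or.inr ⟨n, φ, rfl⟩)
  simp only [indAx, Sentence.Realize, BoundedFormula.realize_alls, BoundedFormula.realize_imp,
    BoundedFormula.realize_inf, BoundedFormula.realize_all, BoundedFormula.realize_bdEqual,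
    realize_tZero, realize_tAdd, realize_tOne, Function.comp_apply, Term.realize_var,
    Sum.elim_inr, Fin.snoc_last, Fin.snoc_castSucc] at h
  refine h p ⟨?_, ?_⟩
  · rintro x rfl
    exact h0
  · rintro x hx y rfl
    rw [BoundedFormula.realize_liftAt_one (by omega)]
    have := h1 x hx
    convert this using 1
    funext i
    refine Fin.lastCases ?_ (fun j => ?_) i
    · simp
    · simp [Fin.snoc]

end Axioms

theorem Df.bdd {P : N → Prop} (hP : Df LPA (Set.univ : Set N) (fun x : Unit → N => P (x ()))) :
    ∃ (n : ℕ) (φ : LPA.BoundedFormula Empty (n + 1)) (p : Fin n → N),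
      ∀ x, P x ↔ φ.Realize default (Fin.snoc p x : Fin (n + 1) → N) := by
  obtain ⟨n, p, -, φ, hφ⟩ := hP.exists_formula
  refine ⟨n, BoundedFormula.relabel (n := n + 1) (k := 0)
    (Sum.elim (fun i => Sum.inr i.castSucc) (fun _ => Sum.inr (Fin.last n))) φ, p, fun x => ?_⟩
  rw [BoundedFormula.realize_relabel]
  have h1 := hφ (fun _ => x)
  rw [h1]
  simp only [Formula.Realize]
  have h2 : (Sum.elim (default : Empty → N) ((Fin.snoc p x : Fin (n + 1) → N) ∘ Fin.castAdd 0) ∘
      Sum.elim (fun i => Sum.inr i.castSucc) (fun _ => Sum.inr (Fin.last n))) =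
      Sum.elim p (fun _ : Unit => x) := by
    funext i
    rcases i with i | i
    · simp
    · simp
  rw [h2]
  have h3 : (default : Fin 0 → N) = (Fin.snoc p x : Fin (n + 1) → N) ∘ Fin.natAdd (n + 1) := by
    funext i
    exact i.elim0
  rw [h3]

/-- Every model of `PA` has the abstract properties. -/
theorem exists_ar (hN : N ⊨ PA) :
    ∃ (_ : LinearOrder N) (z0 : N) (s : N → N), (∀ x y : N, x < y ↔ ltN x y) ∧
      Ar LPA N z0 s := by
  classical
  let _ : IsStrictTotalOrder N ltN :=
    { trichotomous := fun x y h1 h2 => by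
        rcases rax9 hN x y with h | h | h
        · exact absurd h h1
        · exact h
        · exact absurd h h2
      irrefl := rax8 hN
      trans := rax7 hN }
  let _ : LinearOrder N := linearOrderOfSTO ltN
  have hlt : ∀ x y : N, x < y ↔ ltN x y := fun x y => Iff.rfl
  refine ⟨inferInstance, vZero N, fun x => vAdd x (vOne N), hlt, ?_, ?_, ?_, ?_⟩
  · have h : Df LPA (∅ : Set N) (fun x : Fin 2 → N => ltN (x 0) (x 1)) := by
      refine (Df.formula (Relations.formula₂ (L := LPA) PARl.lt (Term.var (0 : Fin 2))
        (Term.var 1))).congr fun x => ?_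
      simp only [Formula.realize_rel₂, Term.realize_var, ltN]
    exact h
  · intro y
    rcases rax14 hN y with h | h
    · exact le_of_lt ((hlt _ _).2 h)
    · exact le_of_eq h
  · intro x z
    have hx1 : x < vAdd x (vOne N) := by
      have h := rax10 hN _ _ x (rax13 hN).1
      rw [rax1 hN (vZero N) x, rax5 hN, rax1 hN (vOne N) x] at h
      exact (hlt _ _).2 h
    constructor
    · intro h
      by_contra hcon
      rw [not_le] at hcon
      obtain ⟨w, hw⟩ := rax12 hN x z ((hlt _ _).1 hcon)
      rcases rax14 hN w with h1 | h1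
      · rcases (rax13 hN).2 w h1 with h2 | h2
        · have h3 := rax10 hN _ _ x h2
          rw [rax1 hN (vOne N) x, rax1 hN w x, hw] at h3
          exact absurd h (not_lt.2 (le_of_lt ((hlt _ _).2 h3)))
        · rw [← hw, ← h2] at h
          exact lt_irrefl _ h
      · rw [← h1, rax5 hN] at hw
        rw [hw] at hcon
        exact lt_irrefl _ hcon
    · intro h
      exact lt_of_le_of_lt h hx1
  · intro P hP h0 h1
    obtain ⟨n, φ, p, hφ⟩ := hP.bdd
    intro x
    rw [hφ]
    refine ind_bdd hN φ p ((hφ _).1 h0) (fun x hx => (hφ _).1 (h1 x ((hφ _).2 hx))) x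

end PALat
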