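import Mathlib
import Pool.Agent.Work.MP_789b02_lc.PA
import Pool.Agent.Work.MP_789b02_lc.Hepta

/-!
A further necessary condition, and the seven element lattice.
-/

open FirstOrder FirstOrder.Language

universe u v w

namespace PALat

variable {M : Type u} {N : Type v} [LPA.Structure M] [LPA.Structure N]

/-- A necessary condition for `Lt*(N/M)`. -/
theorem necessary (hM : M ⊨ PA) (f : M ↪ₑ[LPA] N) (w wb a c j : Lt f)
    (hwb : IsLeast {S : Lt f | IsEnd S.1 ∧ w ≤ S} wb) (hc : IsGLB {c, wb} w)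
    (hwa : w ≤ a) (hawb : a ≤ wb) (hj : IsLUB {a, c} j) : IsGLB {j, wb} a := by
  have hN : N ⊨ PA := (f.theory_model_iff PA).1 hM
  obtain ⟨_, z0, s, hlt, H⟩ := exists_ar hN
  -- the downward closure of `w` contains `wb`
  obtain ⟨U, hU⟩ := H.exists_sup w.1
  have hUf : ∀ x : M, f x ∈ U := fun x => (hU _).2 ⟨f x, w.2 x, le_rfl⟩
  have hUend : IsEnd U := by
    intro x hx y hy
    rw [← hlt]
    rw [hU] at hx hy
    push Not at hy
    obtain ⟨m, hm, hxm⟩ := hx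
    exact lt_of_le_of_lt hxm (hy m hm)
  have hwU : w ≤ (⟨U, hUf⟩ : Lt f) := fun x hx => (hU x).2 ⟨x, hx, le_rfl⟩
  have hbU : wb ≤ (⟨U, hUf⟩ : Lt f) := hwb.2 ⟨hUend, hwU⟩
  have hcofb : ∀ x ∈ wb.1, ∃ m ∈ w.1, x ≤ m := fun x hx => (hU x).1 (hbU hx)
  have hwwb : w ≤ wb := hwb.1.2
  have hwc : w ≤ c := hc.1 (Set.mem_insert _ _)
  -- `w` is an initial segment of `c`
  have hinit : ∀ x ∈ c.1, ∀ m ∈ w.1, x ≤ m → x ∈ w.1 := by
    intro x hx m hm hxm
    have hxb : x ∈ wb.1 := by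
      by_contra hcon
      have h1 := hwb.1.1 m (hwwb hm) x hcon
      rw [← hlt] at h1
      exact absurd hxm (not_le.2 h1)
    obtain ⟨I, hI⟩ := H.exists_inter c.1 wb.1
    have hIf : ∀ x : M, f x ∈ I := fun x => (hI _).2 ⟨c.2 x, wb.2 x⟩
    have h2 : (⟨I, hIf⟩ : Lt f) ≤ w := by
      refine hc.2 ?_
      rintro S (rfl | rfl)
      · exact fun x hx => ((hI x).1 hx).1
      · exact fun x hx => ((hI x).1 hx).2
    exact h2 ((hI x).2 ⟨hx, hxb⟩)
  refine ⟨?_, ?_⟩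
  · rintro S (rfl | rfl)
    · exact hj.1 (Set.mem_insert _ _)
    · exact hawb
  · intro R hR
    have hRj : R ≤ j := hR (Set.mem_insert _ _)
    have hRb : R ≤ wb := hR (Set.mem_insert_of_mem _ rfl)
    intro b hb
    refine H.main (fun x hx => hwa hx) (fun x hx => hwc hx) hinit
      (fun x hx => hcofb x (hawb hx)) b (hcofb b (hRb hb)) ?_
    intro T hTa hTc
    have hTf : ∀ x : M, f x ∈ T := fun x => hTa _ (a.2 x)
    have h3 : j ≤ (⟨T, hTf⟩ : Lt f) := by
      refine hj.2 ?_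
      rintro S (rfl | rfl)
      · exact hTa
      · exact hTc
    exact h3 (hRj hb)

/-- Condition (C) is necessary. -/
theorem condC_of_iso (hM : M ⊨ PA) (f : M ↪ₑ[LPA] N) {L : Type w} [Lattice L] (C : Set L)
    (h : LtStarIso C f) : CondC C := by
  obtain ⟨e, he⟩ := h
  have hglb : ∀ x y : L, IsGLB {e x, e y} (e (x ⊓ y)) := by
    intro x y
    refine ⟨?_, ?_⟩
    · rintro S (rfl | rfl)
      · exact e.le_iff_le.2 inf_le_left
      · exact e.le_iff_le.2 inf_le_right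
    · intro S hS
      obtain ⟨r, rfl⟩ := e.surjective S
      rw [e.le_iff_le]
      exact le_inf (e.le_iff_le.1 (hS (Set.mem_insert _ _)))
        (e.le_iff_le.1 (hS (Set.mem_insert_of_mem _ rfl)))
  have hlub : ∀ x y : L, IsLUB {e x, e y} (e (x ⊔ y)) := by
    intro x y
    refine ⟨?_, ?_⟩
    · rintro S (rfl | rfl)
      · exact e.le_iff_le.2 le_sup_left
      · exact e.le_iff_le.2 le_sup_right
    · intro S hS
      obtain ⟨r, rfl⟩ := e.surjective S
      rw [e.le_iff_le]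
      exact sup_le (e.le_iff_le.1 (hS (Set.mem_insert _ _)))
        (e.le_iff_le.1 (hS (Set.mem_insert_of_mem _ rfl)))
  intro w a c wb hbar hcw hwa hawb
  have h1 : IsLeast {S : Lt f | IsEnd S.1 ∧ e w ≤ S} (e wb) := by
    refine ⟨⟨(he wb).1 hbar.1.1, e.le_iff_le.2 hbar.1.2⟩, ?_⟩
    rintro S ⟨hS1, hS2⟩
    obtain ⟨r, rfl⟩ := e.surjective S
    rw [← he] at hS1
    rw [e.le_iff_le] at hS2 ⊢
    exact hbar.2 ⟨hS1, hS2⟩
  have h2 := hglb c wb
  rw [hcw] at h2
  have h3 := necessary hM f (e w) (e wb) (e a) (e c) (e (a ⊔ c)) h1 h2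
    (e.le_iff_le.2 hwa) (e.le_iff_le.2 hawb) (hlub a c)
  exact e.injective ((hglb (a ⊔ c) wb).unique h3)

/-- The seven element ranked lattice is not of the form `Lt*(N/M)`. -/
theorem not_iso (hM : M ⊨ PA) (f : M ↪ₑ[LPA] N) : ¬ LtStarIso Hx.C f :=
  fun h => Hx.not_condC (condC_of_iso hM f Hx.C h)

end PALat
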