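import Mathlib
import Pool.Agent.Work.MP_789b02_lc.PA

/-!
The standard model of `PA`.
-/

open FirstOrder FirstOrder.Language

namespace PALat

/-- the standard structure on the natural numbers -/
@[instance_reducible] def natStr : LPA.Structure ℕ where
  funMap := fun {n} (f : PAFn n) (xs : Fin n → ℕ) => match n, f, xs with
    | _, PAFn.zero, _ => 0
    | _, PAFn.one, _ => 1
    | _, PAFn.add, xs => xs 0 + xs 1
    | _, PAFn.mul, xs => xs 0 * xs 1
  RelMap := fun {n} (r : PARl n) (xs : Fin n → ℕ) => match n, r, xs with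
    | _, PARl.lt, xs => xs 0 < xs 1

attribute [local instance] natStr

theorem nat_vZero : vZero ℕ = 0 := rfl
theorem nat_vOne : vOne ℕ = 1 := rfl
theorem nat_vAdd (x y : ℕ) : vAdd x y = x + y := rfl
theorem nat_vMul (x y : ℕ) : vMul x y = x * y := rfl
theorem nat_ltN (x y : ℕ) : ltN x y ↔ x < y := Iff.rfl

theorem nat_ax (σ : LPA.Sentence) (hσ : σ ∈ PAminus) : ℕ ⊨ σ := by
  simp only [PAminus, Set.mem_insert_iff, Set.mem_singleton_iff] at hσ
  rcases hσ with rfl | rfl | rfl | rfl | rfl | rfl | rfl | rfl | rfl | rfl | rfl | rfl | rfl |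
    rfl | rfl <;>
    simp only [ax0, ax1, ax2, ax3, ax4, ax5, ax6, ax7, ax8, ax9, ax10, ax11, ax12, ax13, ax14,
      Sentence.Realize, Formula.Realize, BoundedFormula.realize_all,
      BoundedFormula.realize_imp, BoundedFormula.realize_inf, BoundedFormula.realize_sup,
      BoundedFormula.realize_ex, BoundedFormula.realize_not, realize_fLt, realize_tZero,
      realize_tOne, realize_tAdd, realize_tMul, BoundedFormula.realize_bdEqual,
      Function.comp_apply, Term.realize_var, Sum.elim_inr, nat_vZero, nat_vOne, nat_vAdd,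
      nat_vMul, nat_ltN]
  · intro x y z; simp [Fin.snoc]; ring
  · intro x y; simp [Fin.snoc]; ring
  · intro x y z; simp [Fin.snoc]; ring
  · intro x y; simp [Fin.snoc]; ring
  · intro x y z; simp [Fin.snoc]; ring
  · intro x; simp [Fin.snoc]
  · intro x; simp [Fin.snoc]
  · intro x y z; simp [Fin.snoc]; omega
  · intro x; simp [Fin.snoc]
  · intro x y; simp [Fin.snoc]; omega
  · intro x y z; simp [Fin.snoc]
  · intro x y z; simp [Fin.snoc]; intro h1 h2; exact Nat.mul_lt_mul_of_pos_right h2 h1
  · intro x y; simp [Fin.snoc]; intro h; exact ⟨y - x, by omega⟩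
  · simp [Fin.snoc]; intro x hx; omega
  · intro x; simp [Fin.snoc]; omega

theorem nat_ind {n : ℕ} (φ : LPA.BoundedFormula Empty (n + 1)) : ℕ ⊨ indAx φ := by
  simp only [indAx, Sentence.Realize, BoundedFormula.realize_alls, BoundedFormula.realize_imp,
    BoundedFormula.realize_inf, BoundedFormula.realize_all, BoundedFormula.realize_bdEqual,
    realize_tZero, realize_tAdd, realize_tOne, Function.comp_apply, Term.realize_var,
    Sum.elim_inr, Fin.snoc_last, Fin.snoc_castSucc, nat_vZero, nat_vOne, nat_vAdd]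
  rintro p ⟨h0, h1⟩ x
  induction x with
  | zero => exact h0 0 rfl
  | succ x ih =>
    have := h1 x ih (x + 1) rfl
    rw [BoundedFormula.realize_liftAt_one (by omega)] at this
    convert this using 1
    funext i
    refine Fin.lastCases ?_ (fun j => ?_) i
    · simp
    · simp [Fin.snoc]

theorem nat_model : ℕ ⊨ PA := by
  refine ⟨?_⟩
  rintro σ (hσ | ⟨n, φ, rfl⟩)
  · exact nat_ax σ hσ
  · exact nat_ind φ

end PALat
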